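import Mathlib

namespace Pool.Agent.Results.MP_e645df_co.CubicSpanningTime

/-- The rectangle `R_{a,b} = ([0,a-1] × [0,b-1]) ∩ ℤ_+^2`. -/
def Rect (a b : ℕ) : Set (ℕ × ℕ) := {p | p.1 < a ∧ p.2 < b}

/-- Zero-sets: unions of finitely many rectangles `R_{a,b}` with `a, b ≥ 1`. -/
def IsZeroSet (Z : Set (ℕ × ℕ)) : Prop :=
  ∃ I : Finset (ℕ × ℕ), (∀ p ∈ I, 1 ≤ p.1 ∧ 1 ≤ p.2) ∧ Z = ⋃ p ∈ I, Rect p.1 p.2

/-- The number (possibly infinite) of points of `A` on the horizontal line through `x`. -/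
noncomputable def row (x : ℕ × ℕ) (A : Set (ℕ × ℕ)) : ℕ∞ := {y | y ∈ A ∧ y.2 = x.2}.encard

/-- The number (possibly infinite) of points of `A` on the vertical line through `x`. -/
noncomputable def col (x : ℕ × ℕ) (A : Set (ℕ × ℕ)) : ℕ∞ := {y | y ∈ A ∧ y.1 = x.1}.encard

/-- The pair `(a, b)` of extended natural numbers is not an element of `Z`. -/
def NotIn (Z : Set (ℕ × ℕ)) (a b : ℕ∞) : Prop :=
  ¬ ∃ p ∈ Z, a = (p.1 : ℕ∞) ∧ b = (p.2 : ℕ∞)

/-- The growth map `T_Z`. -/
def growth (Z A : Set (ℕ × ℕ)) : Set (ℕ × ℕ) := A ∪ {x | NotIn Z (row x A) (col x A)}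

/-- `A` spans for the zero-set `Z`. -/
def Spans (Z A : Set (ℕ × ℕ)) : Prop := ⋃ t : ℕ, (growth Z)^[t] A = Set.univ

/-- The spanning time `τ(Z, A)`: the least `t` with `T^t(A)` everything (`⊤` if there is none). -/
noncomputable def spanTime (Z A : Set (ℕ × ℕ)) : ℕ∞ :=
  ⨅ (t : ℕ) (_ : (growth Z)^[t] A = Set.univ), (t : ℕ∞)

/-- The maximal spanning time `μ(Z)`: the supremum of the spanning times of finite spanning sets. -/
noncomputable def maxSpanTime (Z : Set (ℕ × ℕ)) : ℕ∞ :=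
  ⨆ (A : Set (ℕ × ℕ)) (_ : A.Finite ∧ Spans Z A), spanTime Z A

/-- `s` is the side of the largest square `R_{s,s}` contained in `Z`. -/
def IsSide (Z : Set (ℕ × ℕ)) (s : ℕ) : Prop := Rect s s ⊆ Z ∧ ¬ Rect (s + 1) (s + 1) ⊆ Z

/-! ### The abstract argument on one line -/

/-- One line: `R u` is the occupied part of the line at time `u`, and if `R u` has `j` points then
exactly the points of `X j u` are added at the next step. -/
theorem line_stuck (R : ℕ → Set ℕ) (X : ℕ → ℕ → Set ℕ) (s t : ℕ)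
    (hR : ∀ u, R u ⊆ R (u + 1))
    (hstep : ∀ (u j : ℕ), (R u).encard = j → R (u + 1) = R u ∪ X j u)
    (hXm : ∀ j, Monotone (X j))
    (hX : ∀ j < s, X j (t + s + 1) = X j t ∨ ((j : ℕ∞) + 1 ≤ (X j t).encard)) :
    (s : ℕ∞) ≤ (R (t + s)).encard ∨ R (t + s + 2) = R (t + s + 1) := by
  have claim1 : ∀ u, t ≤ u → u < t + s + 1 →
      (∃ j : ℕ, j < s ∧ (R u).encard = j ∧ R (u + 1) = R u) →
      (∃ j : ℕ, j < s ∧ (R (u + 1)).encard = j ∧ R (u + 1 + 1) = R (u + 1)) := by
    rintro u htu hu ⟨j, hj, hcard, hst⟩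
    refine ⟨j, hj, by rw [hst]; exact hcard, ?_⟩
    have h1 : X j u ⊆ R u := by
      have := hstep u j hcard
      rw [hst] at this
      rw [this]
      exact Set.subset_union_right
    have h2 : (X j t).encard ≤ j := by
      rw [← hcard]
      exact Set.encard_le_encard ((hXm j htu).trans h1)
    have h3 : X j (t + s + 1) = X j t := by
      rcases hX j hj with h | h
      · exact h
      · exfalso
        have h4 := h.trans h2
        have h5 : ((j + 1 : ℕ) : ℕ∞) ≤ (j : ℕ∞) := by push_cast; exact h4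
        have h6 := Nat.cast_le.mp h5
        omega
    have h4 : X j (u + 1) ⊆ R (u + 1) := by
      rw [hst]
      refine (hXm j (show u + 1 ≤ t + s + 1 by omega)).trans ?_
      rw [h3]
      exact (hXm j htu).trans h1
    rw [hstep (u + 1) j (by rw [hst]; exact hcard)]
    exact Set.union_eq_self_of_subset_right h4
  have claim2 : ∀ k, k ≤ s → ((k : ℕ∞) ≤ (R (t + k)).encard ∨
      (∃ j : ℕ, j < s ∧ (R (t + k)).encard = j ∧ R (t + k + 1) = R (t + k))) := by
    intro k
    induction k with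
    | zero => intro _; left; simp
    | succ k ih =>
      intro hk
      rcases ih (by omega) with h | h
      · by_cases hs : (s : ℕ∞) ≤ (R (t + k)).encard
        · left
          refine (Nat.cast_le.mpr hk).trans (hs.trans ?_)
          exact Set.encard_le_encard (hR (t + k))
        · rw [not_le] at hs
          obtain ⟨j, hj⟩ := ENat.ne_top_iff_exists.mp (ne_top_of_lt hs)
          rw [← hj] at hs
          have hjs : j < s := Nat.cast_lt.mp hs
          by_cases heq : R (t + k + 1) = R (t + k)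
          · right
            exact claim1 (t + k) (by omega) (by omega) ⟨j, hjs, hj.symm, heq⟩
          · left
            have hss : R (t + k) ⊂ R (t + k + 1) :=
              lt_of_le_of_ne (hR (t + k)) (fun h' => heq h'.symm)
            have hfin : (R (t + k)).Finite := by
              rw [← Set.encard_ne_top_iff, ← hj]
              exact ENat.natCast_ne_top j
            have hlt := hfin.encard_lt_encard hss
            have h6 := lt_of_le_of_lt h hlt
            have h7 : ((k : ℕ∞) + 1) ≤ (R (t + k + 1)).encard := Order.add_one_le_of_lt h6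
            push_cast
            exact h7
      · right
        exact claim1 (t + k) (by omega) (by omega) h
  rcases claim2 s le_rfl with h | h
  · left; exact h
  · right
    obtain ⟨j, _, _, h3⟩ := claim1 (t + s) (by omega) (by omega) h
    exact h3

/-! ### Basic facts on zero-sets and the growth map -/

theorem lower_of_zeroSet {Z : Set (ℕ × ℕ)} (hZ : IsZeroSet Z) : IsLowerSet Z := by
  obtain ⟨I, _, rfl⟩ := hZ
  intro p q hqp hp
  simp only [Set.mem_iUnion, Rect, Set.mem_ofPred_eq] at hp ⊢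
  obtain ⟨r, hr, h1, h2⟩ := hp
  exact ⟨r, hr, lt_of_le_of_lt hqp.1 h1, lt_of_le_of_lt hqp.2 h2⟩

theorem notIn_mono {Z : Set (ℕ × ℕ)} (hZ : IsLowerSet Z) {a b a' b' : ℕ∞} (ha : a ≤ a')
    (hb : b ≤ b') (h : NotIn Z a b) : NotIn Z a' b' := by
  rintro ⟨p, hp, h1, h2⟩
  apply h
  rw [h1] at ha
  rw [h2] at hb
  obtain ⟨m, hm⟩ := ENat.ne_top_iff_exists.mp (ne_top_of_le_ne_top (ENat.natCast_ne_top _) ha)
  obtain ⟨n, hn⟩ := ENat.ne_top_iff_exists.mp (ne_top_of_le_ne_top (ENat.natCast_ne_top _) hb)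
  refine ⟨(m, n), hZ ?_ hp, hm.symm, hn.symm⟩
  rw [← hm] at ha
  rw [← hn] at hb
  exact ⟨Nat.cast_le.mp ha, Nat.cast_le.mp hb⟩

/-- The occupied abscissae on the row of height `y`. -/
def rowSet (A : Set (ℕ × ℕ)) (y : ℕ) : Set ℕ := {x | (x, y) ∈ A}

/-- The occupied ordinates on the column of abscissa `x`. -/
def colSet (A : Set (ℕ × ℕ)) (x : ℕ) : Set ℕ := {y | (x, y) ∈ A}

theorem row_eq (A : Set (ℕ × ℕ)) (x y : ℕ) : row (x, y) A = (rowSet A y).encard := by
  unfold row
  have : {p : ℕ × ℕ | p ∈ A ∧ p.2 = (x, y).2} = (fun a => (a, y)) '' rowSet A y := by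
    ext ⟨a, b⟩
    simp only [rowSet, Set.mem_ofPred_eq, Set.mem_image, Prod.mk.injEq]
    constructor
    · rintro ⟨h, rfl⟩
      exact ⟨a, h, rfl, rfl⟩
    · rintro ⟨c, h, rfl, rfl⟩
      exact ⟨h, rfl⟩
  rw [this]
  exact Function.Injective.encard_image (fun a b h => (Prod.mk.inj h).1) _

theorem col_eq (A : Set (ℕ × ℕ)) (x y : ℕ) : col (x, y) A = (colSet A x).encard := by
  unfold col
  have : {p : ℕ × ℕ | p ∈ A ∧ p.1 = (x, y).1} = (fun b => (x, b)) '' colSet A x := by
    ext ⟨a, b⟩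
    simp only [colSet, Set.mem_ofPred_eq, Set.mem_image, Prod.mk.injEq]
    constructor
    · rintro ⟨h, rfl⟩
      exact ⟨b, h, rfl, rfl⟩
    · rintro ⟨c, h, rfl, rfl⟩
      exact ⟨h, rfl⟩
  rw [this]
  exact Function.Injective.encard_image (fun a b h => (Prod.mk.inj h).2) _

theorem mem_growth (Z A : Set (ℕ × ℕ)) (x y : ℕ) : (x, y) ∈ growth Z A ↔
    (x, y) ∈ A ∨ NotIn Z (rowSet A y).encard (colSet A x).encard := by
  unfold growth
  rw [Set.mem_union, Set.mem_ofPred_eq, row_eq, col_eq]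

/-- The columns all of whose points on rows with `j` occupied points get occupied. -/
def XX (Z A : Set (ℕ × ℕ)) (j : ℕ) : Set ℕ := {x | NotIn Z (j : ℕ∞) (colSet A x).encard}

/-- The rows all of whose points on columns with `i` occupied points get occupied. -/
def YY (Z A : Set (ℕ × ℕ)) (i : ℕ) : Set ℕ := {y | NotIn Z (rowSet A y).encard (i : ℕ∞)}

theorem XX_mono {Z : Set (ℕ × ℕ)} (hZ : IsLowerSet Z) (j : ℕ) {A B : Set (ℕ × ℕ)} (h : A ⊆ B) :
    XX Z A j ⊆ XX Z B j := by
  intro x hx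
  exact notIn_mono hZ le_rfl (Set.encard_le_encard (fun y hy => h hy)) hx

theorem YY_mono {Z : Set (ℕ × ℕ)} (hZ : IsLowerSet Z) (i : ℕ) {A B : Set (ℕ × ℕ)} (h : A ⊆ B) :
    YY Z A i ⊆ YY Z B i := by
  intro y hy
  exact notIn_mono hZ (Set.encard_le_encard (fun x hx => h hx)) le_rfl hy

/-- The orbit of `A`. -/
def orb (Z A : Set (ℕ × ℕ)) (t : ℕ) : Set (ℕ × ℕ) := (growth Z)^[t] A

theorem orb_succ (Z A : Set (ℕ × ℕ)) (t : ℕ) : orb Z A (t + 1) = growth Z (orb Z A t) := by
  unfold orb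
  rw [Function.iterate_succ_apply']

theorem orb_mono (Z A : Set (ℕ × ℕ)) : Monotone (orb Z A) := by
  apply monotone_nat_of_le_succ
  intro t
  rw [orb_succ]
  exact Set.subset_union_left

/-! ### The potential -/

/-- Truncated cardinality. -/
noncomputable def tr (j : ℕ) (S : Set ℕ) : ℕ := (min S.encard ((j + 1 : ℕ) : ℕ∞)).toNat

theorem tr_le (j : ℕ) (S : Set ℕ) : tr j S ≤ j + 1 := by
  unfold tr
  have h : min S.encard ((j + 1 : ℕ) : ℕ∞) ≤ ((j + 1 : ℕ) : ℕ∞) := min_le_right _ _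
  have := ENat.toNat_le_toNat h (ENat.natCast_ne_top _)
  rwa [ENat.toNat_natCast] at this

theorem tr_mono (j : ℕ) {S T : Set ℕ} (h : S ⊆ T) : tr j S ≤ tr j T := by
  unfold tr
  refine ENat.toNat_le_toNat (min_le_min_right _ (Set.encard_le_encard h)) ?_
  exact ne_top_of_le_ne_top (ENat.natCast_ne_top (j + 1)) (min_le_right _ _)

theorem tr_eq (j : ℕ) {S T : Set ℕ} (h : S ⊆ T) (he : tr j S = tr j T) :
    T = S ∨ ((j : ℕ∞) + 1 ≤ S.encard) := by
  by_cases hS : (j : ℕ∞) + 1 ≤ S.encard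
  · right; exact hS
  left
  rw [not_le] at hS
  have hS' : S.encard < ((j + 1 : ℕ) : ℕ∞) := by push_cast; exact hS
  have hfin : S.Finite := by
    rw [← Set.encard_ne_top_iff]
    exact ne_top_of_lt hS
  by_contra hne
  have hss : S ⊂ T := lt_of_le_of_ne h (fun h' => hne h'.symm)
  have hlt : S.encard < T.encard := hfin.encard_lt_encard hss
  have h1 : min S.encard ((j + 1 : ℕ) : ℕ∞) < min T.encard ((j + 1 : ℕ) : ℕ∞) := by
    rw [min_eq_left hS'.le]
    exact lt_min hlt hS'
  unfold tr at he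
  have hneT : min T.encard ((j + 1 : ℕ) : ℕ∞) ≠ ⊤ :=
    ne_top_of_le_ne_top (ENat.natCast_ne_top (j + 1)) (min_le_right _ _)
  have hneS : min S.encard ((j + 1 : ℕ) : ℕ∞) ≠ ⊤ :=
    ne_top_of_le_ne_top (ENat.natCast_ne_top (j + 1)) (min_le_right _ _)
  rw [← ENat.natCast_toNat hneT, ← ENat.natCast_toNat hneS, he] at h1
  exact lt_irrefl _ h1

/-- The potential of a configuration. -/
noncomputable def pot (Z : Set (ℕ × ℕ)) (s : ℕ) (A : Set (ℕ × ℕ)) : ℕ :=
  ∑ j ∈ Finset.range s, (tr j (XX Z A j) + tr j (YY Z A j))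

theorem pot_le (Z : Set (ℕ × ℕ)) (s : ℕ) (A : Set (ℕ × ℕ)) : pot Z s A ≤ s * (s + 1) := by
  unfold pot
  have h1 : ∑ j ∈ Finset.range s, (tr j (XX Z A j) + tr j (YY Z A j)) ≤
      ∑ j ∈ Finset.range s, (2 * j + 2) := by
    apply Finset.sum_le_sum
    intro j _
    have h2 := tr_le j (XX Z A j)
    have h3 := tr_le j (YY Z A j)
    omega
  refine h1.trans (le_of_eq ?_)
  clear h1
  induction s with
  | zero => simp
  | succ n ih =>
    rw [Finset.sum_range_succ, ih]
    ring

theorem pot_mono {Z : Set (ℕ × ℕ)} (hZ : IsLowerSet Z) (s : ℕ) {A B : Set (ℕ × ℕ)} (h : A ⊆ B) :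
    pot Z s A ≤ pot Z s B := by
  unfold pot
  apply Finset.sum_le_sum
  intro j _
  exact add_le_add (tr_mono j (XX_mono hZ j h)) (tr_mono j (YY_mono hZ j h))

theorem pot_eq {Z : Set (ℕ × ℕ)} (hZ : IsLowerSet Z) (s : ℕ) {A B : Set (ℕ × ℕ)} (h : A ⊆ B)
    (he : pot Z s A = pot Z s B) (j : ℕ) (hj : j < s) :
    (XX Z B j = XX Z A j ∨ ((j : ℕ∞) + 1 ≤ (XX Z A j).encard)) ∧
    (YY Z B j = YY Z A j ∨ ((j : ℕ∞) + 1 ≤ (YY Z A j).encard)) := by
  unfold pot at he
  have hle : ∀ j ∈ Finset.range s, tr j (XX Z A j) + tr j (YY Z A j) ≤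
      tr j (XX Z B j) + tr j (YY Z B j) := fun j _ =>
    add_le_add (tr_mono j (XX_mono hZ j h)) (tr_mono j (YY_mono hZ j h))
  have := (Finset.sum_eq_sum_iff_of_le hle).mp he j (Finset.mem_range.mpr hj)
  have h1 := tr_mono j (XX_mono hZ j h)
  have h2 := tr_mono j (YY_mono hZ j h)
  exact ⟨tr_eq j (XX_mono hZ j h) (by omega), tr_eq j (YY_mono hZ j h) (by omega)⟩

/-- If the potential does not change during `s + 1` steps, the dynamics has stopped. -/
theorem fix_of_pot {Z : Set (ℕ × ℕ)} (hZ : IsLowerSet Z) {s : ℕ} (hs : (s, s) ∉ Z)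
    (A : Set (ℕ × ℕ)) (t : ℕ) (he : pot Z s (orb Z A t) = pot Z s (orb Z A (t + s + 1))) :
    orb Z A (t + s + 2) = orb Z A (t + s + 1) := by
  apply Set.Subset.antisymm _ (orb_mono Z A (by omega))
  rintro ⟨x, y⟩ hxy
  have hsub : orb Z A t ⊆ orb Z A (t + s + 1) := orb_mono Z A (by omega)
  have hrow := line_stuck (fun u => rowSet (orb Z A u) y) (fun j u => XX Z (orb Z A u) j) s t
    (fun u a ha => orb_mono Z A (Nat.le_succ u) ha)
    (by
      intro u j hj
      ext a
      simp only [rowSet, Set.mem_ofPred_eq, Set.mem_union, XX]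
      rw [orb_succ, mem_growth, ← hj])
    (fun j => fun a b hab => XX_mono hZ j (orb_mono Z A hab))
    (fun j hj => (pot_eq hZ s hsub he j hj).1)
  have hcol := line_stuck (fun u => colSet (orb Z A u) x) (fun i u => YY Z (orb Z A u) i) s t
    (fun u a ha => orb_mono Z A (Nat.le_succ u) ha)
    (by
      intro u i hi
      ext b
      simp only [colSet, Set.mem_ofPred_eq, Set.mem_union, YY]
      rw [orb_succ, mem_growth, ← hi])
    (fun j => fun a b hab => YY_mono hZ j (orb_mono Z A hab))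
    (fun j hj => (pot_eq hZ s hsub he j hj).2)
  rcases hrow with hrow | hrow
  · rcases hcol with hcol | hcol
    · rw [orb_succ, mem_growth]
      right
      refine notIn_mono hZ hrow hcol ?_
      rintro ⟨p, hp, h1, h2⟩
      have h1' : s = p.1 := Nat.cast_injective h1
      have h2' : s = p.2 := Nat.cast_injective h2
      apply hs
      rw [show (s, s) = p from Prod.ext h1' h2']
      exact hp
    · have : y ∈ colSet (orb Z A (t + s + 2)) x := hxy
      have h' : colSet (orb Z A (t + s + 2)) x = colSet (orb Z A (t + s + 1)) x := hcol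
      rw [h'] at this
      exact this
  · have : x ∈ rowSet (orb Z A (t + s + 2)) y := hxy
    have h' : rowSet (orb Z A (t + s + 2)) y = rowSet (orb Z A (t + s + 1)) y := hrow
    rw [h'] at this
    exact this

theorem orb_const {Z A : Set (ℕ × ℕ)} {t : ℕ} (h : orb Z A (t + 1) = orb Z A t) (k : ℕ) :
    orb Z A (t + k) = orb Z A t := by
  induction k with
  | zero => rfl
  | succ k ih => rw [← add_assoc, orb_succ, ih, ← orb_succ, h]

theorem span_bound {Z : Set (ℕ × ℕ)} (hZ : IsLowerSet Z) {s : ℕ} (hs : (s, s) ∉ Z)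
    (A : Set (ℕ × ℕ)) (hA : Spans Z A) :
    orb Z A ((s * (s + 1) + 1) * (s + 1)) = Set.univ := by
  by_contra hne
  have hne' : ∀ t, t ≤ (s * (s + 1) + 1) * (s + 1) → orb Z A t ≠ Set.univ := by
    intro t ht h
    apply hne
    apply Set.Subset.antisymm (Set.subset_univ _)
    rw [← h]
    exact orb_mono Z A ht
  have key : ∀ K, K ≤ s * (s + 1) + 1 → K ≤ pot Z s (orb Z A (K * (s + 1))) := by
    intro K
    induction K with
    | zero => intro _; exact Nat.zero_le _
    | succ K ih =>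
      intro hK
      have h1 := ih (by omega)
      have hmono : pot Z s (orb Z A (K * (s + 1))) ≤ pot Z s (orb Z A (K * (s + 1) + s + 1)) :=
        pot_mono hZ s (orb_mono Z A (by omega))
      have heq : (K + 1) * (s + 1) = K * (s + 1) + s + 1 := by ring
      rw [heq]
      rcases hmono.lt_or_eq with h | h
      · omega
      · exfalso
        have hfix := fix_of_pot hZ hs A (K * (s + 1)) h
        have hle : K * (s + 1) + s + 1 ≤ (s * (s + 1) + 1) * (s + 1) := by
          rw [← heq]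
          exact Nat.mul_le_mul_right _ hK
        apply hne' _ hle
        apply Set.Subset.antisymm (Set.subset_univ _)
        rw [← hA]
        apply Set.iUnion_subset
        intro u
        change orb Z A u ⊆ _
        by_cases hu : u ≤ K * (s + 1) + s + 1
        · exact orb_mono Z A hu
        · obtain ⟨k, rfl⟩ := Nat.exists_eq_add_of_le (le_of_not_ge hu)
          rw [orb_const hfix k]
  have h1 := key _ le_rfl
  have h2 := pot_le Z s (orb Z A ((s * (s + 1) + 1) * (s + 1)))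
  omega

/-- For every nonempty zero-set `Z`, with `s` the side of the largest square contained in `Z`, the
maximal spanning time satisfies `μ(Z) ≤ 6 s ^ 3`. -/
theorem result : ∀ Z : Set (ℕ × ℕ), IsZeroSet Z → Z.Nonempty → ∀ s : ℕ, IsSide Z s →
    maxSpanTime Z ≤ ((6 * s ^ 3 : ℕ) : ℕ∞) := by
  intro Z hZ hne s hs
  have hlow := lower_of_zeroSet hZ
  have hss : (s, s) ∉ Z := by
    intro h
    apply hs.2
    rintro ⟨a, b⟩ ⟨h1, h2⟩
    exact hlow ⟨Nat.lt_succ_iff.mp h1, Nat.lt_succ_iff.mp h2⟩ h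
  have hs1 : 1 ≤ s := by
    by_contra h0
    have h0' : s = 0 := by omega
    subst h0'
    obtain ⟨p, hp⟩ := hne
    exact hss (hlow ⟨Nat.zero_le _, Nat.zero_le _⟩ hp)
  unfold maxSpanTime
  apply iSup_le
  intro A
  apply iSup_le
  rintro ⟨_, hA⟩
  have hb := span_bound hlow hss A hA
  have h1 : spanTime Z A ≤ (((s * (s + 1) + 1) * (s + 1) : ℕ) : ℕ∞) := by
    unfold spanTime
    exact iInf_le_of_le _ (iInf_le_of_le hb le_rfl)
  refine h1.trans (Nat.cast_le.mpr ?_)
  obtain ⟨k, rfl⟩ := Nat.exists_eq_add_of_le hs1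
  nlinarith [sq_nonneg k, Nat.zero_le (k ^ 3), Nat.zero_le (k ^ 2), Nat.zero_le k]

end Pool.Agent.Results.MP_e645df_co.CubicSpanningTime
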